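import Mathlib
import Pool.Agent.Lib.MP_50ef00_gt.H72.Final

/-!
# Infinitely many simple-homotopy types within one homotopy type of 2-complexes

There is a sequence `K 0, K 1, K 2, …` of finite connected simplicial complexes of dimension two
whose geometric realizations are pairwise homotopy equivalent, but no two of which can be
transformed into each other by elementary expansions and elementary collapses (and renaming of
vertices), even if finite complexes of arbitrary dimension are allowed in between.

`K n` is a triangulation of the presentation complex of
`⟨t, x, y, w | y x y⁻¹ x, y² t y⁻² t⁻⁶, (x t x⁻¹) t (x t x⁻¹)⁻¹ t⁻⁶, v_k⟩`, `k = 620 (n + 1)`, where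
`v_0 = [w, t]` and `v_{i+1} = v_i t v_i t⁻¹`.
-/

namespace Pool.Agent.Results.MP_50ef00_gt.InfinitelyManyTypes

/-- A finite (abstract) simplicial complex with vertices in `ℕ`: a finite set of nonempty finite
sets (the simplices), closed under passing to nonempty subsets (faces). -/
def IsComplex (K : Finset (Finset ℕ)) : Prop :=
  ∀ s ∈ K, s.Nonempty ∧ ∀ t : Finset ℕ, t ⊆ s → t.Nonempty → t ∈ K

/-- `L` is obtained from `K` by an elementary collapse (and `K` from `L` by an elementary
expansion): `K` has a simplex `t` with a free face `s` of codimension one, i.e. `s` and `t` are the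
only simplices of `K` that contain `s`, and `L` is `K` without `s` and `t`. -/
def Collapse (K L : Finset (Finset ℕ)) : Prop :=
  ∃ s t : Finset ℕ, s ∈ K ∧ t ∈ K ∧ s ⊆ t ∧ t.card = s.card + 1 ∧
    (∀ u ∈ K, s ⊆ u → u = s ∨ u = t) ∧ L = (K.erase s).erase t

/-- `L` is obtained from `K` by renaming the vertices (a simplicial isomorphism). -/
def Rename (K L : Finset (Finset ℕ)) : Prop :=
  ∃ f : Equiv.Perm ℕ, L = K.image (Finset.image f)

/-- Simple-homotopy equivalence of finite simplicial complexes: a finite sequence of elementary
collapses, elementary expansions and renamings of vertices. All intermediate complexes are finite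
simplicial complexes, of arbitrary dimension. -/
def SimpleEquiv : Finset (Finset ℕ) → Finset (Finset ℕ) → Prop :=
  Relation.EqvGen fun K L => IsComplex K ∧ IsComplex L ∧ (Collapse K L ∨ Rename K L)

/-- The geometric realization of `K`: points are given by their barycentric coordinates, with the
topology of a subspace of `ℕ → ℝ` (for a finite complex only finitely many coordinates can be
nonzero, so this is the usual polyhedron in a finite-dimensional Euclidean space). -/
def Realization (K : Finset (Finset ℕ)) : Set (ℕ → ℝ) :=
  {x | (∀ i, 0 ≤ x i) ∧ ∃ s ∈ K, (∀ i, i ∉ s → x i = 0) ∧ ∑ i ∈ s, x i = 1}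

/-- There are infinitely many finite connected simplicial complexes of dimension at most two which
are pairwise homotopy equivalent and pairwise not simple-homotopy equivalent. -/
theorem result : ∃ K : ℕ → Finset (Finset ℕ),
    (∀ n, IsComplex (K n) ∧ (∀ s ∈ K n, s.card ≤ 3) ∧ PathConnectedSpace (Realization (K n))) ∧
    (∀ m n, Nonempty (ContinuousMap.HomotopyEquiv (Realization (K m)) (Realization (K n)))) ∧
    ∀ m n, m ≠ n → ¬ SimpleEquiv (K m) (K n) :=
  Pool.Agent.Lib.MP_50ef00_gt.H72.final

end Pool.Agent.Results.MP_50ef00_gt.InfinitelyManyTypes
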